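import Mathlib

namespace Pool.Agent.Results.MP_49f1ce_an.Spacing

open Set Filter Topology

/-- The `n`-th power of the left shift. -/
def sh (n : ℤ) (x : ℤ → Bool) : ℤ → Bool := fun i => x (i + n)

/-- `(x, s) ∼ (σ x, s - r x)` on `X × ℝ`. -/
def Rel (X : Set (ℤ → Bool)) (r : X → ℝ) (p q : X × ℝ) : Prop :=
  q.1.1 = sh 1 p.1.1 ∧ q.2 = p.2 - r p.1

/-- The suspension flow on `Quot (Rel X r)` is topologically mixing. -/
def Mixing (X : Set (ℤ → Bool)) (r : X → ℝ) : Prop :=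
  ∀ U V : Set (Quot (Rel X r)), IsOpen U → IsOpen V → U.Nonempty → V.Nonempty →
    ∃ T : ℝ, ∀ t ≥ T, ∃ x s, Quot.mk _ (x, s) ∈ U ∧ Quot.mk _ (x, s + t) ∈ V

/-- `r` is cohomologous to a locally constant function. -/
def CohLC (X : Set (ℤ → Bool)) (r : X → ℝ) : Prop :=
  ∃ g h : X → ℝ, Continuous g ∧ Continuous h ∧
    (∃ N : ℕ, ∀ x y : X, (∀ i : ℤ, |i| ≤ N → x.1 i = y.1 i) → g x = g y) ∧
    ∀ x y : X, y.1 = sh 1 x.1 → r x - g x = h y - h x

def D (n : ℤ) : Prop := ∃ k : ℕ, 16 ^ k ≤ n ∧ n < 2 * 16 ^ k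

def X0 : Set (ℤ → Bool) := {x | ∀ i j, i < j → x i = true → x j = true → D (j - i)}

lemma shX (n : ℤ) {x : ℤ → Bool} (h : x ∈ X0) : sh n x ∈ X0 := fun i j ij a b => by
  simpa using h (i + n) (j + n) (by omega) a b

lemma nD {k : ℕ} {n : ℤ} (h1 : 2 * 16 ^ k ≤ n) (h2 : n < 16 * 16 ^ k) : ¬ D n := fun ⟨j, a, b⟩ => by
  rcases le_or_gt j k with h | h
  · linarith [pow_le_pow_right₀ (show (1 : ℤ) ≤ 16 by norm_num) h]
  · linarith [pow_le_pow_right₀ (show (1 : ℤ) ≤ 16 by norm_num) (show k + 1 ≤ j from h),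
      pow_succ (16 : ℤ) k]

lemma cyl {U : Set (ℤ → Bool)} (hU : IsOpen U) {x : ℤ → Bool} (hx : x ∈ U) :
    ∃ N : ℕ, ∀ y, (∀ i : ℤ, |i| ≤ N → y i = x i) → y ∈ U := by
  obtain ⟨I, u, h1, h2⟩ := isOpen_pi_iff.1 hU x hx
  refine ⟨I.sup Int.natAbs, fun y hy => h2 fun i hi => hy i ?_ ▸ (h1 i hi).2⟩
  rw [Int.abs_eq_natAbs]
  exact_mod_cast Finset.le_sup (f := Int.natAbs) hi

noncomputable def r0 (x : X0) : ℝ := 1 + √(∑' i : ℕ, if x.1 (-i) then 1 / ((i : ℝ) + 1) ^ 2 else 0)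

lemma z2 : HasSum (fun i : ℕ => 1 / ((i : ℝ) + 1) ^ 2) (Real.pi ^ 2 / 6) := by
  simpa using (hasSum_nat_add_iff' 1).2 hasSum_zeta_two

lemma cv (i : ℤ) : Continuous fun x : X0 => x.1 i := (continuous_apply i).comp continuous_subtype_val

lemma cs (n : ℤ) : Continuous fun p : X0 × ℝ => (⟨sh n p.1.1, shX n p.1.2⟩ : X0) :=
  (continuous_pi fun _ => (cv _).comp continuous_fst).subtype_mk _

lemma rc : Continuous r0 := continuous_const.add (.sqrt (continuous_tsum (fun i =>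
  (continuous_of_discreteTopology (f := fun b : Bool => if b then 1 / ((i : ℝ) + 1) ^ 2 else 0)).comp
    (cv _)) z2.summable fun i x => by split_ifs <;> simp; positivity))

lemma rb (x : X0) : 1 ≤ r0 x ∧ r0 x ≤ 3 := ⟨le_add_of_nonneg_right (Real.sqrt_nonneg _), by
  have : (∑' i : ℕ, if x.1 (-i) then 1 / ((i : ℝ) + 1) ^ 2 else 0) ≤ Real.pi ^ 2 / 6 :=
    z2.tsum_eq ▸ (z2.summable.of_nonneg_of_le (fun i => by positivity) fun i => by
      split_ifs; exacts [le_rfl, by positivity]).tsum_le_tsum (fun i => by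
        split_ifs; exacts [le_rfl, by positivity]) z2.summable
  have := Real.sqrt_le_sqrt (this.trans (show _ ≤ 2 ^ 2 by nlinarith [Real.pi_le_four, Real.pi_pos]))
  rw [Real.sqrt_sq (by norm_num)] at this
  unfold r0
  linarith⟩

noncomputable def τ : X0 × ℝ ≃ₜ X0 × ℝ where
  toFun p := (⟨sh 1 p.1.1, shX 1 p.1.2⟩, p.2 - r0 p.1)
  invFun p := (⟨sh (-1) p.1.1, shX _ p.1.2⟩, p.2 + r0 ⟨sh (-1) p.1.1, shX _ p.1.2⟩)
  left_inv p := by
    have : (⟨sh (-1) (sh 1 p.1.1), shX _ (shX 1 p.1.2)⟩ : X0) = p.1 := by ext; simp [sh]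
    simp [this]
  right_inv p := by ext <;> simp [sh]
  continuous_toFun := (cs 1).prodMk (continuous_snd.sub (rc.comp continuous_fst))
  continuous_invFun := (cs _).prodMk (continuous_snd.add (rc.comp (cs _)))

lemma τn (n : ℕ) (p : X0 × ℝ) : ((τ ^ n) p).1.1 = sh n p.1.1 ∧ p.2 - 3 * n ≤ ((τ ^ n) p).2 ∧
    ((τ ^ n) p).2 ≤ p.2 - n := by
  induction n with
  | zero => exact ⟨by ext; simp [sh], by simp, by simp⟩
  | succ n ih =>
    rw [pow_succ', Homeomorph.mul_apply]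
    have := rb ((τ ^ n) p).1
    have e : (τ ((τ ^ n) p)).2 = ((τ ^ n) p).2 - r0 ((τ ^ n) p).1 := rfl
    refine ⟨(congrArg (sh 1) ih.1).trans (by ext; simp only [sh]; push_cast; ring_nf), ?_, ?_⟩ <;>
    · rw [e]; push_cast; linarith

lemma qe {p q : X0 × ℝ} : Quot.mk (Rel X0 r0) p = Quot.mk _ q ↔ ∃ n : ℤ, (τ ^ n) p = q := by
  refine ⟨fun h => ?_, fun ⟨n, h⟩ => h ▸ ?_⟩
  · replace h := Quot.eqvGen_exact h
    induction h with
    | rel p q h => exact ⟨1, Prod.ext (Subtype.ext h.1.symm) h.2.symm⟩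
    | refl => exact ⟨0, rfl⟩
    | symm p q h ih =>
      obtain ⟨n, rfl⟩ := ih
      exact ⟨-n, by rw [← Homeomorph.mul_apply, ← zpow_add]; simp⟩
    | trans p q s h h' i1 i2 =>
      obtain ⟨n, rfl⟩ := i1
      obtain ⟨m, rfl⟩ := i2
      exact ⟨m + n, by rw [zpow_add, Homeomorph.mul_apply]⟩
  · have e : ∀ p, Quot.mk (Rel X0 r0) p = Quot.mk _ (τ p) := fun p => Quot.sound ⟨rfl, rfl⟩
    clear h
    induction n with
    | zero => rfl
    | succ n ih => rw [add_comm, zpow_one_add, Homeomorph.mul_apply, ← e, ← ih]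
    | pred n ih => rw [ih, e ((τ ^ (-n - 1 : ℤ)) p), ← Homeomorph.mul_apply, ← zpow_one_add]; simp

def e (n : ℤ) : X0 := ⟨fun i => decide (i + n = 0), fun i j h a b => by simp at a b; omega⟩

theorem result : ∃ X : Set (ℤ → Bool), X.Nonempty ∧ IsClosed X ∧ sh 1 '' X = X ∧
    (∀ U V : Set (ℤ → Bool), IsOpen U → IsOpen V → (X ∩ U).Nonempty → (X ∩ V).Nonempty →
      ∃ n ≥ 1, ∃ x ∈ X ∩ U, sh n x ∈ V) ∧ {x ∈ X | ∃ n ≥ 1, sh n x = x}.Finite ∧
    ∃ r : X → ℝ, Continuous r ∧ (∀ x, 0 < r x) ∧ ¬ Mixing X r ∧ ¬ CohLC X r := by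
  have p16 : ∀ k : ℕ, (k : ℤ) < 16 ^ k := fun k => by exact_mod_cast Nat.lt_pow_self (by norm_num)
  refine ⟨X0, ⟨_, (e 0).2⟩, ?_, ?_, ?_, ?_, r0, rc, fun x => one_pos.trans_le (rb x).1, ?_, ?_⟩
  · rw [X0, setOf_forall]
    refine isClosed_iInter fun i => ?_
    rw [setOf_forall]
    refine isClosed_iInter fun j => ?_
    rw [setOf_forall]
    refine isClosed_iInter fun _ => ?_
    exact (isClosed_discrete {b : Bool × Bool | b.1 = true → b.2 = true → D (j - i)}).preimage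
      (f := fun x : ℤ → Bool => (x i, x j)) (by fun_prop)
  · exact (image_subset_iff.2 fun x => shX 1).antisymm fun x h =>
      ⟨_, shX (-1) h, by ext; simp [sh]⟩
  · rintro U V hU hV ⟨x, hx, xU⟩ ⟨y, hy, yV⟩
    obtain ⟨N, hN⟩ := cyl hU xU
    obtain ⟨M, hM⟩ := cyl hV yV
    have := p16 (2 * (N + M))
    obtain ⟨n, hn⟩ : ∃ n : ℤ, n = 16 ^ (2 * (N + M)) + (N + M) := ⟨_, rfl⟩
    push_cast at this
    refine ⟨n, by omega, fun i => if |i| ≤ N then x i else if |i - n| ≤ M then y (i - n) else false,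
      ⟨fun i j ij a b => ?_, hN _ fun i hi => if_pos hi⟩, hM _ fun i hi => ?_⟩
    · simp only [abs_le] at a b
      split_ifs at a b
      · exact hx i j ij a b
      · exact ⟨2 * (N + M), by omega, by omega⟩
      · omega
      · simpa using hy _ _ (by omega) a b
    · rw [abs_le] at hi
      simp only [sh, abs_le]
      rw [if_neg (by omega), if_pos (by omega), add_sub_cancel_right]
  · refine (finite_singleton fun _ => false).subset fun x ⟨hx, n, n1, hn⟩ => funext fun i => ?_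
    by_contra hi
    have a : ∀ m : ℕ, x (i + m * n) = x i := fun m => by
      induction m with
      | zero => simp
      | succ m ih => rw [← ih, ← congrFun hn (i + m * n), sh]; push_cast; ring_nf
    obtain ⟨k, rfl⟩ := Int.eq_ofNat_of_zero_le (show 0 ≤ n by omega)
    have b := p16 k
    have c := Int.lt_ediv_add_one_mul_self (2 * 16 ^ k) (show (0 : ℤ) < k by omega)
    have d := Int.ediv_mul_le (2 * 16 ^ k) (show (k : ℤ) ≠ 0 by omega)
    obtain ⟨m, hm⟩ := Int.eq_ofNat_of_zero_le (show (0 : ℤ) ≤ 2 * 16 ^ k / k + 1 by positivity)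
    rw [hm] at c
    refine nD (k := k) (n := i + m * k - i) (by linarith) (by rw [← hm]; linarith)
      (hx _ _ (by linarith) (by simpa using hi) (by simpa [a] using hi))
  · intro h
    let U := Quot.mk (Rel X0 r0) '' {p | p.1.1 0 = true ∧ p.2 ∈ Ioo 0 1}
    have hU : IsOpen U := isOpen_coinduced.2 (by
      have : Quot.mk _ ⁻¹' U = ⋃ n : ℤ, (τ ^ n) ⁻¹' {p | p.1.1 0 = true ∧ p.2 ∈ Ioo 0 1} := by
        ext p
        simp only [U, mem_preimage, mem_image, mem_iUnion, eq_comm (b := Quot.mk _ p), qe]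
        exact ⟨fun ⟨q, a, n, b⟩ => ⟨n, b ▸ a⟩, fun ⟨n, a⟩ => ⟨_, a, n, rfl⟩⟩
      rw [this]
      exact isOpen_iUnion fun n => IsOpen.preimage (τ ^ n).continuous (IsOpen.inter
        ((isOpen_discrete {true}).preimage ((cv 0).comp continuous_fst))
        (isOpen_Ioo.preimage continuous_snd)))
    have ne : U.Nonempty := ⟨_, (e 0, 1 / 2), ⟨by simp [e], by norm_num⟩, rfl⟩
    obtain ⟨T, hT⟩ := h U U hU hU ne ne
    obtain ⟨k, hk⟩ := pow_unbounded_of_one_lt T (show (1 : ℝ) < 16 by norm_num)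
    have k1 : (1 : ℝ) ≤ 16 ^ k := one_le_pow₀ (by norm_num)
    obtain ⟨x, s, ⟨p, ⟨p1, p2⟩, hp⟩, q, ⟨q1, q2⟩, hq⟩ := hT (10 * 16 ^ k) (by linarith)
    have fl : ∀ {a b : X0 × ℝ}, Quot.mk (Rel X0 r0) a = Quot.mk _ b →
        Quot.mk (Rel X0 r0) (a.1, a.2 + 10 * 16 ^ k) = Quot.mk _ (b.1, b.2 + 10 * 16 ^ k) :=
      fun h => congrArg (Quot.map (fun a : X0 × ℝ => (a.1, a.2 + 10 * 16 ^ k)) fun a b h =>
        ⟨h.1, by simp only [h.2]; ring⟩) h
    obtain ⟨n, hn⟩ := qe.1 ((fl hp).trans hq.symm)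
    obtain ⟨n, rfl | rfl⟩ := n.eq_nat_or_neg
    · obtain ⟨a, b, c⟩ := τn n (p.1, p.2 + 10 * 16 ^ k)
      rw [zpow_natCast] at hn
      rw [hn] at a b c
      have b' : (2 : ℤ) * 16 ^ k ≤ n := by
        have : (2 : ℝ) * 16 ^ k ≤ n := by linarith [p2.1, q2.2]
        exact_mod_cast this
      have c' : (n : ℤ) < 16 * 16 ^ k := by
        have : (n : ℝ) < 16 * 16 ^ k := by linarith [p2.2, q2.1]
        exact_mod_cast this
      exact nD b' c' (by simpa using p.1.2 0 n (by linarith [p16 k]) p1 (by simpa [a, sh] using q1))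
    · have := (τn n q).2.2
      rw [← hn, ← Homeomorph.mul_apply, ← zpow_natCast, ← zpow_add, add_neg_cancel, zpow_zero,
        Homeomorph.one_apply, hn] at this
      linarith [p2.1, q2.2, n.cast_nonneg (α := ℝ)]
  · rintro ⟨g, h, -, hc, ⟨N, hN⟩, hh⟩
    let o : X0 := ⟨fun _ => false, fun _ _ _ a => by simp at a⟩
    have g0 : g o = 1 := by have := hh o o rfl; simp [r0, o] at this; linarith
    have st : ∀ n : ℕ, h (e (n + N + 1 + 1)) - h (e (n + N + 1)) = 1 / ((n + (N + 2) : ℕ) : ℝ) :=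
      fun n => by
        rw [← hh _ _ (by ext; simp [e, sh]; omega), hN _ o fun i hi => by
          rw [abs_le] at hi; simp [e, o]; omega, g0, r0, tsum_eq_single (n + N + 1) fun b hb => by
            simp [e]; omega, if_pos (by simp [e]; omega), ← one_div_pow, Real.sqrt_sq (by positivity)]
        push_cast; ring
    have lim : Tendsto (fun n : ℕ => e (n + N + 1)) atTop (𝓝 o) :=
      tendsto_subtype_rng.2 (tendsto_pi_nhds.2 fun i => tendsto_const_nhds.congr' (by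
        filter_upwards [eventually_ge_atTop i.natAbs] with n hn
        simp [e, o]; omega))
    refine Real.not_summable_one_div_natCast ((summable_nat_add_iff (N + 2)).1 (HasSum.summable
      ((hasSum_iff_tendsto_nat_of_nonneg (fun n => by positivity) _).2
        ((((hc.tendsto o).comp lim).sub_const (h (e ((0 : ℕ) + N + 1)))).congr fun n => ?_))))
    refine (Finset.sum_range_sub (fun n : ℕ => h (e (n + N + 1))) n).symm.trans ?_
    exact Finset.sum_congr rfl fun i _ => by rw [← st]; push_cast; ring_nf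

end Pool.Agent.Results.MP_49f1ce_an.Spacing
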